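import Pool.Agent.Q98.SPN.Star

/-! INT: an intertwiner of a block with the ambient space. -/

set_option autoImplicit false

open scoped Matrix.Norms.L2Operator Matrix
open Finset

namespace Pool.Agent.Q5.SPN

open Pool.Agent.Q98.SPN

theorem INT_ok : S_INT := by
  intro m _ _ 𝒜 k d Φ i hd
  classical
  let j₀ : Fin (d i) := ⟨0, hd⟩
  let w : Fin (d i) → ℂ := Pi.single j₀ 1
  let Z : (Fin (d i) → ℂ) → ((i : Fin k) → Matrix (Fin (d i)) (Fin (d i)) ℂ) := fun u =>
    Pi.single i (Matrix.vecMulVec u w)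
  have Zadd : ∀ u u', Z (u + u') = Z u + Z u' := fun u u' => by
    simp only [Z, Matrix.add_vecMulVec, Pi.single_add]
  have Zsmul : ∀ (c : ℂ) u, Z (c • u) = c • Z u := fun c u => by
    simp only [Z, Matrix.smul_vecMulVec, Pi.single_smul]
  have Zmul : ∀ (p : (i : Fin k) → Matrix (Fin (d i)) (Fin (d i)) ℂ) u, p * Z u = Z (p i *ᵥ u) := by
    intro p u
    funext i'
    by_cases h : i' = i
    · subst h
      simp only [Z, Pi.mul_apply, Pi.single_eq_same, Matrix.mul_vecMulVec]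
    · simp only [Z, Pi.mul_apply, Pi.single_eq_of_ne h, mul_zero]
  have hZ : Z w ≠ 0 := by
    intro h
    have h1 := congrFun (congrFun (congrFun h i) j₀) j₀
    simp [Z, Matrix.vecMulVec_apply, w] at h1
  have he : ((Φ.symm (Z w) : 𝒜) : Matrix m m ℂ) ≠ 0 := by
    intro h
    apply hZ
    have h1 : (Φ.symm (Z w) : 𝒜) = 0 := Subtype.ext h
    simpa using congrArg Φ h1
  obtain ⟨v, hv⟩ : ∃ v : m → ℂ, ((Φ.symm (Z w) : 𝒜) : Matrix m m ℂ) *ᵥ v ≠ 0 := by
    by_contra hc
    push Not at hc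
    apply he
    ext a b
    have := congrFun (hc (Pi.single b 1)) a
    simpa using this
  let L : (Fin (d i) → ℂ) →ₗ[ℂ] (m → ℂ) :=
    { toFun := fun u => ((Φ.symm (Z u) : 𝒜) : Matrix m m ℂ) *ᵥ v
      map_add' := fun u u' => by
        rw [Zadd, map_add]
        simp [Matrix.add_mulVec]
      map_smul' := fun c u => by
        rw [Zsmul, map_smul]
        simp [Matrix.smul_mulVec] }
  have hL : ∀ u, L u = ((Φ.symm (Z u) : 𝒜) : Matrix m m ℂ) *ᵥ v := fun _ => rfl
  have hxL : ∀ (x : 𝒜) u, (x : Matrix m m ℂ) *ᵥ L u = L (Φ x i *ᵥ u) := by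
    intro x u
    rw [hL, hL, Matrix.mulVec_mulVec, ← Zmul (Φ x) u, map_mul, Φ.symm_apply_apply]
    rfl
  refine ⟨LinearMap.toMatrix' L, ?_, ?_⟩
  · intro x
    apply Matrix.ext_of_mulVec_single
    intro b
    rw [← Matrix.mulVec_mulVec, ← Matrix.mulVec_mulVec, LinearMap.toMatrix'_mulVec,
      LinearMap.toMatrix'_mulVec]
    exact hxL x _
  · intro u hu
    rw [LinearMap.toMatrix'_mulVec] at hu
    by_contra hne
    obtain ⟨b, hb⟩ : ∃ b, u b ≠ 0 := by
      by_contra hc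
      push Not at hc
      exact hne (funext hc)
    let B : Matrix (Fin (d i)) (Fin (d i)) ℂ := Matrix.vecMulVec w (Pi.single b (u b)⁻¹)
    have hB : B *ᵥ u = w := by
      funext a
      simp [B, Matrix.vecMulVec, Matrix.mulVec, dotProduct, Pi.single_apply, hb]
    have h1 := hxL (Φ.symm (Pi.single i B)) u
    rw [hu, Φ.apply_symm_apply, Pi.single_eq_same, hB, Matrix.mulVec_zero] at h1
    exact hv (h1.symm.trans rfl |>.symm ▸ rfl)

end Pool.Agent.Q5.SPN
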