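import Pool.Agent.Q98.SPN.Star

/-! SMOD: the `*`-preserving model of a `*`-algebra of matrices. -/

set_option autoImplicit false

open scoped Matrix.Norms.L2Operator Matrix
open Finset

namespace Pool.Agent.Q5.SPN

open Pool.Agent.Q98.SPN

/-- conjugation by an invertible matrix -/
noncomputable def cj {d : ℕ} (S : (Matrix (Fin d) (Fin d) ℂ)ˣ) :
    Matrix (Fin d) (Fin d) ℂ ≃ₐ[ℂ] Matrix (Fin d) (Fin d) ℂ where
  toFun x := (S : Matrix (Fin d) (Fin d) ℂ) * x * ((S⁻¹ : (Matrix (Fin d) (Fin d) ℂ)ˣ) : Matrix _ _ ℂ)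
  invFun x := ((S⁻¹ : (Matrix (Fin d) (Fin d) ℂ)ˣ) : Matrix _ _ ℂ) * x * (S : Matrix (Fin d) (Fin d) ℂ)
  left_inv x := by
    simp only [← mul_assoc, Units.inv_mul, one_mul]
    rw [mul_assoc, Units.inv_mul, mul_one]
  right_inv x := by
    simp only [← mul_assoc, Units.mul_inv, one_mul]
    rw [mul_assoc, Units.mul_inv, mul_one]
  map_mul' x y := by
    simp only [mul_assoc]
    rw [Units.inv_mul_cancel_left]
  map_add' x y := by simp only [mul_add, add_mul]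
  commutes' c := by
    rw [← Algebra.commutes c (S : Matrix (Fin d) (Fin d) ℂ), mul_assoc, Units.mul_inv, mul_one]

theorem SMOD_ok (h1 : S_SWED) (h2 : S_INT) (h3 : S_SQ) : S_SMOD := by
  intro m _ _ 𝒜
  obtain ⟨k, d, Φ, hd, hs⟩ := h1 m 𝒜
  choose T hT hT' using fun i => h2 m 𝒜 k d Φ i (hd i)
  choose S hS using fun i => h3 m (d i) (T i) (hT' i)
  refine ⟨k, d, Φ.trans (AlgEquiv.piCongrRight fun i => cj (S i)), hd, hs, ?_⟩
  intro x i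
  have e1 : ∀ y : 𝒜, (Φ.trans (AlgEquiv.piCongrRight fun i => cj (S i))) y i =
      (S i : Matrix (Fin (d i)) (Fin (d i)) ℂ) * Φ y i *
        (((S i)⁻¹ : (Matrix (Fin (d i)) (Fin (d i)) ℂ)ˣ) : Matrix _ _ ℂ) := fun y => rfl
  rw [e1, e1]
  have hk : (S i : Matrix (Fin (d i)) (Fin (d i)) ℂ)ᴴ * (S i : Matrix (Fin (d i)) (Fin (d i)) ℂ) *
      Φ (star x) i = (Φ x i)ᴴ *
        ((S i : Matrix (Fin (d i)) (Fin (d i)) ℂ)ᴴ * (S i : Matrix (Fin (d i)) (Fin (d i)) ℂ)) := by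
    rw [hS i, Matrix.mul_assoc, ← hT i (star x), ← Matrix.mul_assoc, ← Matrix.mul_assoc,
      ← Matrix.conjTranspose_mul, ← hT i x, Matrix.conjTranspose_mul]
    rfl
  have hinv : (((S i)⁻¹ : (Matrix (Fin (d i)) (Fin (d i)) ℂ)ˣ) : Matrix _ _ ℂ)ᴴ *
      (S i : Matrix (Fin (d i)) (Fin (d i)) ℂ)ᴴ = 1 := by
    rw [← Matrix.conjTranspose_mul, Units.mul_inv, Matrix.conjTranspose_one]
  calc (S i : Matrix (Fin (d i)) (Fin (d i)) ℂ) * Φ (star x) i *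
        (((S i)⁻¹ : (Matrix (Fin (d i)) (Fin (d i)) ℂ)ˣ) : Matrix _ _ ℂ)
      = ((((S i)⁻¹ : (Matrix (Fin (d i)) (Fin (d i)) ℂ)ˣ) : Matrix _ _ ℂ)ᴴ *
        (S i : Matrix (Fin (d i)) (Fin (d i)) ℂ)ᴴ) * ((S i : Matrix (Fin (d i)) (Fin (d i)) ℂ) *
          Φ (star x) i * (((S i)⁻¹ : (Matrix (Fin (d i)) (Fin (d i)) ℂ)ˣ) : Matrix _ _ ℂ)) := by
        rw [hinv, Matrix.one_mul]
    _ = (((S i)⁻¹ : (Matrix (Fin (d i)) (Fin (d i)) ℂ)ˣ) : Matrix _ _ ℂ)ᴴ *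
        ((S i : Matrix (Fin (d i)) (Fin (d i)) ℂ)ᴴ * (S i : Matrix (Fin (d i)) (Fin (d i)) ℂ) *
          Φ (star x) i) * (((S i)⁻¹ : (Matrix (Fin (d i)) (Fin (d i)) ℂ)ˣ) : Matrix _ _ ℂ) := by
        simp only [Matrix.mul_assoc]
    _ = (((S i)⁻¹ : (Matrix (Fin (d i)) (Fin (d i)) ℂ)ˣ) : Matrix _ _ ℂ)ᴴ *
        ((Φ x i)ᴴ * ((S i : Matrix (Fin (d i)) (Fin (d i)) ℂ)ᴴ *
          ((S i : Matrix (Fin (d i)) (Fin (d i)) ℂ) *
            (((S i)⁻¹ : (Matrix (Fin (d i)) (Fin (d i)) ℂ)ˣ) : Matrix _ _ ℂ)))) := by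
        rw [hk]
        simp only [Matrix.mul_assoc]
    _ = _ := by
        rw [Units.mul_inv, Matrix.mul_one, Matrix.conjTranspose_mul, Matrix.conjTranspose_mul]

end Pool.Agent.Q5.SPN
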