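import Pool.Agent.Q98.SPN.Star

/-! SS: a `*`-closed algebra of matrices is semisimple. -/

set_option autoImplicit false

open scoped Matrix.Norms.L2Operator Matrix
open Finset

namespace Pool.Agent.Q5.SPN

open Pool.Agent.Q98.SPN

theorem SS_ok : S_SS := by
  intro m _ _ 𝒜
  have hf : Module.Finite ℂ (Subalgebra.toSubmodule 𝒜.toSubalgebra) := inferInstance
  have hf' : Module.Finite ℂ 𝒜 := hf
  have : IsArtinianRing 𝒜 := IsArtinianRing.of_finite ℂ 𝒜
  rw [IsArtinianRing.isSemisimpleRing_iff_jacobson, eq_bot_iff]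
  intro x hx
  have hnil : IsNilpotent (Ring.jacobson 𝒜) := IsSemiprimaryRing.isNilpotent
  have hy : star x * x ∈ Ring.jacobson 𝒜 := Ideal.mul_mem_left _ _ hx
  obtain ⟨n, hn⟩ := hnil
  have h0 : (star x * x) ^ n = 0 := by
    have := Ideal.pow_mem_pow hy n
    rw [hn] at this
    simpa using this
  have h1 : (star x * x) ^ (2 ^ n) = 0 := by
    have : n ≤ 2 ^ n := Nat.lt_two_pow_self.le
    rw [← Nat.sub_add_cancel this, pow_add, h0, mul_zero]
  set y : Matrix m m ℂ := star (x : Matrix m m ℂ) * (x : Matrix m m ℂ) with hydef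
  have h2 : y ^ (2 ^ n) = 0 := by
    have := congrArg (fun z : 𝒜 => (z : Matrix m m ℂ)) h1
    simpa [hydef] using this
  have hsa : IsSelfAdjoint y := IsSelfAdjoint.star_mul_self _
  have h3 := hsa.nnnorm_pow_two_pow n
  rw [h2, nnnorm_zero] at h3
  have h4 : ‖y‖₊ = 0 := by
    by_contra hne
    exact (pow_ne_zero (2 ^ n) hne) h3.symm
  have h5 : y = 0 := by simpa using h4
  have h6 : (x : Matrix m m ℂ) = 0 := by
    rwa [hydef, CStarRing.star_mul_self_eq_zero_iff] at h5
  rw [Ideal.mem_bot]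
  exact Subtype.ext h6

end Pool.Agent.Q5.SPN
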